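import Mathlib

/-!
Long runs of constant values of the factorial-splitting function: a run of length `L` with value
`t` starting at `m` forces a high power of `t` to divide `m!`.
-/

namespace Pool.Agent.Results.MP_ee6cad_nt.RunForcesPower

open Nat

/-- The values `min (a_1, ..., a_n)` over all ways of writing `n! = a_1 ... a_n` as a product of
exactly `n` positive integers (repetitions allowed, order irrelevant). -/
def splitMins (n : ℕ) : Set ℕ :=
  {t | ∃ s : Multiset ℕ, s.card = n ∧ s.prod = n.factorial ∧ t ∈ s ∧ ∀ x ∈ s, t ≤ x}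

/-- `l(n)`, the largest possible value of the smallest factor. -/
noncomputable def l (n : ℕ) : ℕ := sSup (splitMins n)

/-- `t e` is the product of the two integers `t b / a` and `e a / b`, both larger than `t`. -/
def Swappable (t e : ℕ) : Prop := ∃ a b : ℕ, a ∣ t ∧ b ∣ e ∧ a < b ∧ b * t < a * e

private def F (n t r : ℕ) : Prop :=
  ∃ s : Multiset ℕ, s.card = n ∧ s.prod = n.factorial ∧ (∀ x ∈ s, t ≤ x) ∧ s.count t ≤ r

private lemma mem_bound {n t : ℕ} (h : t ∈ splitMins n) : t ≤ n.factorial := by
  obtain ⟨s, _, hp, hm, _⟩ := h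
  have : t ∣ n.factorial := hp ▸ Multiset.dvd_prod hm
  exact Nat.le_of_dvd (Nat.factorial_pos n) this

private lemma bdd (n : ℕ) : BddAbove (splitMins n) := ⟨n.factorial, fun _ h => mem_bound h⟩

private lemma splitMins_nonempty {n : ℕ} (hn : 1 ≤ n) : (splitMins n).Nonempty := by
  refine ⟨1, (Multiset.range n).map (· + 1), by simp, ?_, ?_, ?_⟩
  · have := Finset.prod_range_add_one_eq_factorial n
    simpa [Finset.prod] using this
  · rw [Multiset.mem_map]
    exact ⟨0, Multiset.mem_range.mpr (by omega), rfl⟩
  · intro x hx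
    rw [Multiset.mem_map] at hx
    obtain ⟨y, _, rfl⟩ := hx
    omega

private lemma l_mem {n : ℕ} (hn : 1 ≤ n) : l n ∈ splitMins n :=
  Nat.sSup_mem (splitMins_nonempty hn) (bdd n)

private lemma l_ge {n t : ℕ} (hn : 1 ≤ n) (h : F n (t + 1) n ∨ ∃ s : Multiset ℕ, s.card = n ∧
    s.prod = n.factorial ∧ ∀ x ∈ s, t + 1 ≤ x) : t + 1 ≤ l n := by
  have h' : ∃ s : Multiset ℕ, s.card = n ∧ s.prod = n.factorial ∧ ∀ x ∈ s, t + 1 ≤ x := by
    rcases h with ⟨s, h1, h2, h3, _⟩ | h
    · exact ⟨s, h1, h2, h3⟩
    · exact h
  obtain ⟨s, h1, h2, h3⟩ := h'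
  have hne : s.toFinset.Nonempty := by
    rw [Multiset.toFinset_nonempty]
    rintro rfl
    simp at h1
    omega
  have hmem := Finset.min'_mem s.toFinset hne
  have hmin : s.toFinset.min' hne ∈ splitMins n := by
    refine ⟨s, h1, h2, by simpa using hmem, fun x hx => ?_⟩
    exact Finset.min'_le _ _ (by simpa using hx)
  exact (h3 _ (by simpa using hmem)).trans (le_csSup (bdd n) hmin)

private lemma F_succ {n t r : ℕ} (h : F n t r) (ht : t < n + 1) : F (n + 1) t r := by
  obtain ⟨s, h1, h2, h3, h4⟩ := h
  refine ⟨(n + 1) ::ₘ s, by simp [h1], by simp [h2, Nat.factorial_succ], ?_, ?_⟩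
  · intro x hx
    rcases Multiset.mem_cons.mp hx with rfl | hx
    · exact ht.le
    · exact h3 x hx
  · rw [Multiset.count_cons_of_ne (by omega)]
    exact h4

private lemma F_swap {n t r : ℕ} (h : F n t (r + 1)) (ht0 : 0 < t) (ht : t < n + 1)
    (hs : Swappable t (n + 1)) : F (n + 1) t r := by
  obtain ⟨s, h1, h2, h3, h4⟩ := h
  by_cases hmem : t ∈ s
  · obtain ⟨a, b, ⟨c, hc⟩, ⟨d, hd⟩, hab, hbt⟩ := hs
    have ha0 : 0 < a := Nat.pos_of_ne_zero (by rintro rfl; simp at hc; omega)
    have hc0 : 0 < c := Nat.pos_of_ne_zero (by rintro rfl; simp at hc; omega)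
    have hb0 : 0 < b := by omega
    have hd0 : 0 < d := Nat.pos_of_ne_zero (by rintro rfl; simp at hd)
    -- x = c * b, y = d * a
    have hx : t < c * b := by
      rw [hc, Nat.mul_comm a c]
      exact Nat.mul_lt_mul_of_pos_left hab hc0
    have hy : t < d * a := by
      have : b * t < b * (d * a) := by
        calc b * t < a * (n + 1) := hbt
          _ = a * (b * d) := by rw [hd]
          _ = b * (d * a) := by ring
      exact Nat.lt_of_mul_lt_mul_left this
    refine ⟨(c * b) ::ₘ (d * a) ::ₘ s.erase t, ?_, ?_, ?_, ?_⟩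
    · simp only [Multiset.card_cons]
      rw [Multiset.card_erase_of_mem hmem, h1]
      have : 0 < s.card := Multiset.card_pos_iff_exists_mem.mpr ⟨t, hmem⟩
      rw [h1] at this
      simp only [Nat.pred_eq_sub_one]
      omega
    · simp only [Multiset.prod_cons]
      have he : t * (s.erase t).prod = s.prod := by
        rw [← Multiset.prod_cons, Multiset.cons_erase hmem]
      rw [Nat.factorial_succ, ← h2, ← he]
      calc c * b * (d * a * (s.erase t).prod) = (b * d) * ((a * c) * (s.erase t).prod) := by ring
        _ = (n + 1) * (t * (s.erase t).prod) := by rw [← hd, ← hc]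
    · intro x hx'
      rcases Multiset.mem_cons.mp hx' with rfl | hx'
      · exact hx.le
      rcases Multiset.mem_cons.mp hx' with rfl | hx'
      · exact hy.le
      · exact h3 x (Multiset.mem_of_mem_erase hx')
    · rw [Multiset.count_cons_of_ne hx.ne, Multiset.count_cons_of_ne hy.ne,
        Multiset.count_erase_self]
      omega
  · refine F_succ ⟨s, h1, h2, h3, ?_⟩ ht
    rw [Multiset.count_eq_zero_of_notMem hmem]
    exact Nat.zero_le _

open Classical in
private lemma F_iter {m t c : ℕ} (ht0 : 0 < t) (htm : t ≤ m) (h : F m t c) (k : ℕ) :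
    F (m + k) t (c - ((Finset.Ioc m (m + k)).filter (fun e => Swappable t e)).card) := by
  induction k with
  | zero => simpa using h
  | succ k ih =>
    have hIoc : Finset.Ioc m (m + (k + 1)) = insert (m + k + 1) (Finset.Ioc m (m + k)) := by
      ext x
      simp only [Finset.mem_Ioc, Finset.mem_insert]
      omega
    have hnot : (m + k + 1) ∉ Finset.Ioc m (m + k) := by
      simp
    by_cases hs : Swappable t (m + k + 1)
    · have hcard : ((Finset.Ioc m (m + (k + 1))).filter (fun e => Swappable t e)).card
          = ((Finset.Ioc m (m + k)).filter (fun e => Swappable t e)).card + 1 := by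
        rw [hIoc, Finset.filter_insert, if_pos hs, Finset.card_insert_of_notMem]
        intro hmem
        exact hnot (Finset.mem_filter.mp hmem).1
      rw [hcard]
      set q := ((Finset.Ioc m (m + k)).filter (fun e => Swappable t e)).card
      by_cases hq : c - q = 0
      · have h0 : c - (q + 1) = c - q := by omega
        rw [h0]
        exact F_succ (n := m + k) ih (by omega)
      · have h1 : c - q = (c - (q + 1)) + 1 := by omega
        rw [h1] at ih
        exact F_swap (n := m + k) ih ht0 (by omega) hs
    · have hcard : ((Finset.Ioc m (m + (k + 1))).filter (fun e => Swappable t e)).card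
          = ((Finset.Ioc m (m + k)).filter (fun e => Swappable t e)).card := by
        rw [hIoc, Finset.filter_insert, if_neg hs]
      rw [hcard]
      exact F_succ (n := m + k) ih (by omega)

private lemma pow_count_dvd (s : Multiset ℕ) (t : ℕ) : t ^ s.count t ∣ s.prod := by
  have : Multiset.replicate (s.count t) t ≤ s := Multiset.le_count_iff_replicate_le.mp le_rfl
  have h := Multiset.prod_dvd_prod_of_le this
  rwa [Multiset.prod_replicate] at h

private lemma fact_lt (m : ℕ) (hm : 2 ≤ m) : m.factorial * 2 ^ m < (m + 1) ^ m := by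
  induction m, hm using Nat.le_induction with
  | base => decide
  | succ m hm ih =>
    have hb : 2 * (m + 1) ^ (m + 1) ≤ (m + 1 + 1) ^ (m + 1) := by
      have h1 := one_add_mul_le_pow (R := ℚ) (a := 1 / ((m : ℚ) + 1)) (by
        have : (0 : ℚ) ≤ 1 / ((m : ℚ) + 1) := by positivity
        linarith) (m + 1)
      have h2 : (1 : ℚ) + ((m + 1 : ℕ) : ℚ) * (1 / ((m : ℚ) + 1)) = 2 := by
        push_cast
        field_simp
        norm_num
      rw [h2] at h1
      have h3 : ((m : ℚ) + 1) ^ (m + 1) * (1 + 1 / ((m : ℚ) + 1)) ^ (m + 1)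
          = ((m : ℚ) + 1 + 1) ^ (m + 1) := by
        rw [← mul_pow]
        congr 1
        field_simp
      have h4 : (2 : ℚ) * ((m : ℚ) + 1) ^ (m + 1) ≤ ((m : ℚ) + 1 + 1) ^ (m + 1) := by
        rw [← h3]
        have hp : (0 : ℚ) ≤ ((m : ℚ) + 1) ^ (m + 1) := by positivity
        nlinarith
      exact_mod_cast h4
    calc (m + 1).factorial * 2 ^ (m + 1) = 2 * (m + 1) * (m.factorial * 2 ^ m) := by
          rw [Nat.factorial_succ, pow_succ]; ring
      _ < 2 * (m + 1) * (m + 1) ^ m := by
          exact Nat.mul_lt_mul_of_pos_left ih (by positivity)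
      _ = 2 * (m + 1) ^ (m + 1) := by rw [pow_succ]; ring
      _ ≤ (m + 1 + 1) ^ (m + 1) := hb

/-- If `l` has the same value `t` at `m, m + 1, ..., m + L - 1`, then `t ^ (u + 1)` divides `m!`,
`u` the number of swappable `e` with `m < e < m + L`; in particular `t ^ ceil (L / 2)` divides
`m!`, and `L (p - 1) v_p(t) <= 2 (m - 1)` for every prime `p` dividing `t`. -/
theorem result (m L t : ℕ) (hm : 1 ≤ m) (hL : 1 ≤ L) (h : ∀ j < L, l (m + j) = t) :
    t ^ (Set.ncard {e : ℕ | m < e ∧ e < m + L ∧ Swappable t e} + 1) ∣ m.factorial ∧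
    t ^ ((L + 1) / 2) ∣ m.factorial ∧
    ∀ p : ℕ, p.Prime → p ∣ t → L * (p - 1) * t.factorization p ≤ 2 * (m - 1) := by
  classical
  have h0 : l m = t := by simpa using h 0 (by omega)
  have hl := l_mem hm
  rw [h0] at hl
  obtain ⟨s, hs1, hs2, hs3, hs4⟩ := hl
  have ht0 : 0 < t := by
    rcases Nat.eq_zero_or_pos t with rfl | h'
    · exfalso
      have : (0 : ℕ) ∣ m.factorial := hs2 ▸ Multiset.dvd_prod hs3
      exact (Nat.factorial_pos m).ne' (by simpa using this)
    · exact h'
  have hpow : t ^ m ≤ m.factorial := by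
    rw [← hs2, ← hs1]
    exact Multiset.pow_card_le_prod hs4
  have htm : t ≤ m := by
    by_contra hcon
    have h1 : m ^ m < t ^ m := Nat.pow_lt_pow_left (by omega) (by omega)
    have h2 : m.factorial ≤ m ^ m := Nat.factorial_le_pow m
    omega
  set u := ((Finset.Ioc m (m + (L - 1))).filter (fun e => Swappable t e)).card with hu
  have hset : Set.ncard {e : ℕ | m < e ∧ e < m + L ∧ Swappable t e} = u := by
    rw [hu, ← Set.ncard_coe_finset]
    congr 1
    ext e
    simp only [Set.mem_ofPred_eq, Finset.coe_filter, Finset.mem_Ioc]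
    constructor
    · rintro ⟨a, b, c⟩
      exact ⟨⟨a, by omega⟩, c⟩
    · rintro ⟨⟨a, b⟩, c⟩
      exact ⟨a, by omega, c⟩
  have hmain : t ^ (u + 1) ∣ m.factorial := by
    by_contra hcon
    have hc : s.count t ≤ u := by
      by_contra hlt
      apply hcon
      rw [← hs2]
      exact (pow_dvd_pow t (by omega)).trans (pow_count_dvd s t)
    have hF := F_iter ht0 htm (⟨s, hs1, hs2, hs4, hc⟩ : F m t u) (L - 1)
    rw [← hu, Nat.sub_self] at hF
    obtain ⟨s', h1, h2, h3, h4⟩ := hF
    have hge : t + 1 ≤ l (m + (L - 1)) := by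
      refine l_ge (by omega) (Or.inr ⟨s', h1, h2, fun x hx => ?_⟩)
      rcases Nat.lt_or_ge t x with h' | h'
      · exact h'
      · exfalso
        have hxt : x = t := le_antisymm h' (h3 x hx)
        rw [hxt] at hx
        have := Multiset.count_pos.mpr hx
        omega
    rw [h (L - 1) (by omega)] at hge
    omega
  have hhalf : t ^ ((L + 1) / 2) ∣ m.factorial := by
    rcases Nat.lt_or_ge m 2 with hm2 | hm2
    · have : t = 1 := by omega
      subst this
      simp
    · have h2t : 2 * t ≤ m := by
        by_contra hcon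
        have h1 : (m + 1) ^ m ≤ (2 * t) ^ m := Nat.pow_le_pow_left (by omega) m
        have h2 := fact_lt m hm2
        have h3 : (2 * t) ^ m ≤ m.factorial * 2 ^ m := by
          rw [mul_pow, Nat.mul_comm]
          exact Nat.mul_le_mul_right _ hpow
        omega
      have hu2 : (L + 1) / 2 ≤ u + 1 := by
        -- even numbers in `(m, m + L - 1]`
        have hsub : (Finset.Ioc (m / 2) ((m + (L - 1)) / 2)).image (fun i => 2 * i) ⊆
            (Finset.Ioc m (m + (L - 1))).filter (fun e => Swappable t e) := by
          intro e he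
          rw [Finset.mem_image] at he
          obtain ⟨i, hi, rfl⟩ := he
          rw [Finset.mem_Ioc] at hi
          rw [Finset.mem_filter, Finset.mem_Ioc]
          refine ⟨⟨by omega, by omega⟩, 1, 2, one_dvd t, ⟨i, rfl⟩, by norm_num, by omega⟩
        have hcard := Finset.card_le_card hsub
        rw [Finset.card_image_of_injective _ (fun a b hab => by
          simpa using hab), Nat.card_Ioc] at hcard
        omega
      exact (pow_dvd_pow t hu2).trans hmain
  refine ⟨by rw [hset]; exact hmain, hhalf, fun p hp hpt => ?_⟩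
  have hv : (L + 1) / 2 * t.factorization p ≤ m.factorial.factorization p := by
    have h1 := (Nat.factorization_le_iff_dvd (pow_pos ht0 _).ne' (Nat.factorial_pos m).ne').mpr
      hhalf p
    rwa [Nat.factorization_pow, Finsupp.smul_apply, smul_eq_mul] at h1
  have hleg : (p - 1) * m.factorial.factorization p = m - (p.digits m).sum := by
    have := Fact.mk hp
    rw [Nat.factorization_def _ hp]
    exact sub_one_mul_padicValNat_factorial m
  have hdig : 1 ≤ (p.digits m).sum := by
    by_contra hcon
    have hz : (p.digits m).sum = 0 := by omega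
    have hall : ∀ x ∈ p.digits m, x = 0 := by
      intro x hx
      have := List.single_le_sum (by simp) x hx
      omega
    have hne : p.digits m ≠ [] := Nat.digits_ne_nil_iff_ne_zero.mpr (by omega)
    have hlast := Nat.getLast_digit_ne_zero p (m := m) (by omega)
    exact hlast (hall _ (List.getLast_mem _))
  calc L * (p - 1) * t.factorization p
      ≤ (2 * ((L + 1) / 2)) * (p - 1) * t.factorization p := by
        gcongr
        omega
    _ = 2 * ((p - 1) * ((L + 1) / 2 * t.factorization p)) := by ring
    _ ≤ 2 * ((p - 1) * m.factorial.factorization p) := by gcongr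
    _ = 2 * (m - (p.digits m).sum) := by rw [hleg]
    _ ≤ 2 * (m - 1) := by omega

end Pool.Agent.Results.MP_ee6cad_nt.RunForcesPower
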